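import Pool.Agent.Helper75.KM.StmtsC

set_option autoImplicit false

namespace Pool.Agent.Helper75.KM

open Pool.Agent.Helper8.Kak Pool.Agent.Helper89.KakGeo
open scoped ENNReal

theorem st_CARD : ST_CARD := by
  classical
  intro m N L _ v hv
  obtain ⟨hb, hinj⟩ := hv
  let S : Finset (Fin m → ℤ) := Fintype.piFinset (fun _ => Finset.Icc (-(2 : ℤ) ^ N) (2 ^ N))
  have hmem : ∀ l, cell ((1 / 2 : ℝ) ^ N) (v l) ∈ S := by
    intro l
    refine Fintype.mem_piFinset.2 (fun i => ?_)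
    have e : cell ((1 / 2 : ℝ) ^ N) (v l) i = ⌊v l i / (1 / 2 : ℝ) ^ N⌋ := rfl
    have hx : v l i / (1 / 2 : ℝ) ^ N = v l i * 2 ^ N := by
      rw [one_div, inv_pow, div_inv_eq_mul]
    have h1 := abs_le.1 (hb l i)
    have h2 : (0 : ℝ) < 2 ^ N := by positivity
    rw [e, hx, Finset.mem_Icc]
    constructor
    · rw [Int.le_floor]
      push_cast
      nlinarith [h1.1]
    · have : ((⌊v l i * 2 ^ N⌋ : ℤ) : ℝ) ≤ ((2 ^ N : ℤ) : ℝ) := by
        refine (Int.floor_le _).trans ?_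
        push_cast
        nlinarith [h1.2]
      exact_mod_cast this
  have hc : Fintype.card L ≤ S.card := by
    rw [← Finset.card_univ]
    exact Finset.card_le_card_of_injOn (fun l => cell ((1 / 2 : ℝ) ^ N) (v l))
      (fun l _ => hmem l) (fun a _ b _ h => hinj h)
  have hS : S.card = (2 * 2 ^ N + 1) ^ m := by
    have : (Finset.Icc (-(2 : ℤ) ^ N) (2 ^ N)).card = 2 * 2 ^ N + 1 := by
      rw [Int.card_Icc]
      have : (2 : ℤ) ^ N + 1 - -2 ^ N = ((2 * 2 ^ N + 1 : ℕ) : ℤ) := by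
        push_cast; ring
      rw [this, Int.toNat_natCast]
    simp only [S, Fintype.card_piFinset, this, Finset.prod_const, Finset.card_univ, Fintype.card_fin]
  have h3 : (2 * 2 ^ N + 1) ^ m ≤ (3 * 2 ^ N) ^ m := by
    refine Nat.pow_le_pow_left ?_ m
    have : 1 ≤ 2 ^ N := Nat.one_le_two_pow
    omega
  have := (hc.trans_eq hS).trans h3
  exact_mod_cast this

theorem st_SEL : ST_SEL := by
  classical
  intro ι _ X _ F q B hq h
  have h1 : ∀ i, (⨆ x, F i x) ^ q = ⨆ s : (∀ i, X i), F i (s i) ^ q := by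
    intro i
    have h2 : (⨆ x, F i x) ^ q = ⨆ x, F i x ^ q :=
      (ENNReal.orderIsoRpow q hq).map_iSup (fun x => F i x)
    rw [h2]
    exact ((Function.surjective_eval i).iSup_comp (fun x => F i x ^ q)).symm
  rw [Finset.sum_congr rfl (fun i _ => h1 i), ENNReal.finsetSum_iSup]
  · exact iSup_le h
  · intro s t
    refine ⟨fun i => if F i (s i) ^ q ≤ F i (t i) ^ q then t i else s i, fun i => ?_⟩
    by_cases hc : F i (s i) ^ q ≤ F i (t i) ^ q
    · simp only [if_pos hc]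
      exact ⟨hc, le_rfl⟩
    · simp only [if_neg hc]
      exact ⟨le_rfl, (not_le.1 hc).le⟩

end Pool.Agent.Helper75.KM
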